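import Pool.Agent.N708.MX.Fin2

/-!
# A non-amenable group whose reduced `C^*`-algebra is matricially weakly semiprojective

There is a countable non-amenable group `G` such that `C^*_r(G)` is matricially weakly
semiprojective: every `*`-homomorphism `C^*_r(G) → ∏ M_{d n}(ℂ) / ⨁ M_{d n}(ℂ)` lifts to
`∏ M_{d n}(ℂ)`; in fact every such `*`-homomorphism is zero.

The group: `F` the field with 257 elements, `A` the algebra of operators generated by the truncated
shifts `x₀, x₁, y₀, y₁` on the binary trees of all heights `m`, `ψ(a)` = the operator `a` of height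
`m` on the subtree of height `m` of the tree of height `m + 1` (an endomorphism of the ring `A` with
`A (1 - ψ 1) A = A`), `K = E₃(A)` (property (T), residually finite), `φ` the endomorphism of `K`
induced by `ψ`, `G = ⟨K, h | h⁻¹ k h = φ(k)⟩`, an ascending HNN extension (a sofic group).

The proof: for an asymptotic homomorphism of `G` into unitary matrices in the OPERATOR norm, the
spaces of almost `K`-invariant and of almost `h K h⁻¹`-invariant vectors (in `ℂ^d` and in the
matrices with the Hilbert-Schmidt norm) have the same finite dimension, and `K ≤ h K h⁻¹`; so they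
are almost equal. Hence the centraliser of `φ(K)` almost commutes with `K`, and `K` is
asymptotically trivial (`MX.Fin.main`). A `*`-homomorphism from `C^*_r(G)` gives such an asymptotic
homomorphism, and it is zero because `K` has a spectral gap on `ℓ²(G)`.
-/

set_option autoImplicit false

namespace Pool.Agent.Results.MP_56ff7a_an.NoMatricialModels

open Filter Topology
open scoped Pointwise symmDiff

noncomputable section

/-- Operator norm of a complex `d × d` matrix (acting on the Euclidean space `ℂ^d`). -/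
def opNorm {d : ℕ} (M : Matrix (Fin d) (Fin d) ℂ) : ℝ := ‖Matrix.toEuclideanCLM (𝕜 := ℂ) M‖

/-- The Hilbert space `ℓ²(G)`. -/
def L2 (G : Type) : Type := lp (fun _ : G => ℂ) 2

instance L2.normed (G : Type) : NormedAddCommGroup (L2 G) :=
  lp.normedAddCommGroup (E := fun _ : G => ℂ) (p := 2)

instance L2.inner (G : Type) : InnerProductSpace ℂ (L2 G) :=
  lp.instInnerProductSpace (𝕜 := ℂ) (G := fun _ : G => ℂ)

instance L2.complete (G : Type) : CompleteSpace (L2 G) :=
  (inferInstance : CompleteSpace (lp (fun _ : G => ℂ) 2))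

/-- Left translation `f ↦ (x ↦ f (g⁻¹ x))`, an isometry of `ℓ²(G)`. -/
def leftTrans {G : Type} [Group G] (g : G) : L2 G →ₗᵢ[ℂ] L2 G where
  toFun := fun f => ⟨fun x => f.1 (g⁻¹ * x), by
    have h1 := (lp.memℓp f).summable (by norm_num)
    refine memℓp_gen ?_
    exact ((Equiv.mulLeft g⁻¹).summable_iff (f := fun x => ‖f.1 x‖ ^ (2 : ENNReal).toReal)).2 h1⟩
  map_add' := fun _ _ => rfl
  map_smul' := fun _ _ => rfl
  norm_map' := fun f => by
    have h1 : (0 : ℝ) < (2 : ENNReal).toReal := by norm_num
    refine (lp.norm_eq_tsum_rpow h1 _).trans (Eq.trans ?_ (lp.norm_eq_tsum_rpow h1 _).symm)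
    congr 1
    exact (Equiv.mulLeft g⁻¹).tsum_eq (fun x => ‖f.1 x‖ ^ (2 : ENNReal).toReal)

/-- The bounded operators on `ℓ²(G)`. -/
def Bdd (G : Type) : Type := L2 G →L[ℂ] L2 G

instance Bdd.ring (G : Type) : Ring (Bdd G) :=
  ContinuousLinearMap.ring (R := ℂ) (M := L2 G)

instance Bdd.algebra (G : Type) : Algebra ℂ (Bdd G) :=
  ContinuousLinearMap.algebra (R := ℂ) (M := L2 G)

/-- The operator norm topology. -/
instance Bdd.topology (G : Type) : TopologicalSpace (Bdd G) :=
  ContinuousLinearMap.topologicalSpace (𝕜₁ := ℂ) (𝕜₂ := ℂ) (σ := RingHom.id ℂ) (E := L2 G)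
    (F := L2 G)

instance Bdd.isSemitop (G : Type) : IsSemitopologicalSemiring (Bdd G) :=
  (inferInstance : IsSemitopologicalSemiring (L2 G →L[ℂ] L2 G))

/-- `star T` is the adjoint operator `T*`. -/
instance Bdd.starRing (G : Type) : StarRing (Bdd G) :=
  (inferInstance : StarRing (L2 G →L[ℂ] L2 G))

instance Bdd.starModule (G : Type) : StarModule ℂ (Bdd G) :=
  (inferInstance : StarModule ℂ (L2 G →L[ℂ] L2 G))

instance Bdd.continuousStar (G : Type) : ContinuousStar (Bdd G) :=
  (inferInstance : ContinuousStar (L2 G →L[ℂ] L2 G))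

/-- The operators `λ_g` of the left regular representation. -/
def lam {G : Type} [Group G] (g : G) : Bdd G := (leftTrans g).toContinuousLinearMap

set_option backward.isDefEq.respectTransparency false in
/-- The reduced group `C^*`-algebra `C^*_r(G)` inside the bounded operators on `ℓ²(G)`: the norm
closure of the `*`-algebra generated by the operators `λ_g`. -/
def redAlg (G : Type) [Group G] : StarSubalgebra ℂ (Bdd G) :=
  (StarAlgebra.adjoin ℂ (Set.range (lam (G := G)))).topologicalClosure

set_option backward.isDefEq.respectTransparency false in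
/-- The reduced group `C^*`-algebra `C^*_r(G)`. -/
def RedCStar (G : Type) [Group G] : Type := ↥(redAlg G)

set_option backward.isDefEq.respectTransparency false in
instance RedCStar.ring (G : Type) [Group G] : Ring (RedCStar G) :=
  (inferInstance : Ring ↥(redAlg G))

set_option backward.isDefEq.respectTransparency false in
instance RedCStar.algebra (G : Type) [Group G] : Algebra ℂ (RedCStar G) :=
  (inferInstance : Algebra ℂ ↥(redAlg G))

set_option backward.isDefEq.respectTransparency false in
instance RedCStar.star (G : Type) [Group G] : Star (RedCStar G) :=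
  (inferInstance : Star ↥(redAlg G))

/-- `θ = (θ_n)` is a set-theoretic lift of a `*`-homomorphism from `A` to
`∏ M_{d n}(ℂ) / ⨁ M_{d n}(ℂ)`, the bounded sequences of matrices modulo the sequences which tend
to `0` in operator norm. -/
structure LiftsStarHom {A : Type} [Ring A] [Algebra ℂ A] [Star A] (d : ℕ → ℕ)
    (θ : ∀ n, A → Matrix (Fin (d n)) (Fin (d n)) ℂ) : Prop where
  bdd : ∀ a, ∃ C : ℝ, ∀ n, opNorm (θ n a) ≤ C
  add : ∀ a b, Tendsto (fun n => opNorm (θ n (a + b) - (θ n a + θ n b))) atTop (𝓝 0)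
  smul : ∀ (z : ℂ) a, Tendsto (fun n => opNorm (θ n (z • a) - z • θ n a)) atTop (𝓝 0)
  mul : ∀ a b, Tendsto (fun n => opNorm (θ n (a * b) - θ n a * θ n b)) atTop (𝓝 0)
  star : ∀ a, Tendsto (fun n => opNorm (θ n (star a) - (θ n a).conjTranspose)) atTop (𝓝 0)

/-- `A` is matricially weakly semiprojective: every `*`-homomorphism from `A` to
`∏ M_{d n}(ℂ) / ⨁ M_{d n}(ℂ)` lifts to a `*`-homomorphism to `∏ M_{d n}(ℂ)`. -/
def MatriciallyWeaklySemiprojective (A : Type) [Ring A] [Algebra ℂ A] [Star A] : Prop :=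
  ∀ (d : ℕ → ℕ) (θ : ∀ n, A → Matrix (Fin (d n)) (Fin (d n)) ℂ), LiftsStarHom d θ →
    ∃ ψ : ∀ n, A →⋆ₙₐ[ℂ] Matrix (Fin (d n)) (Fin (d n)) ℂ,
      ∀ a, Tendsto (fun n => opNorm (θ n a - ψ n a)) atTop (𝓝 0)

/-- Amenability of a discrete group (Følner's condition). -/
def IsAmenable (G : Type) [Group G] : Prop :=
  ∀ (S : Finset G) (ε : ℝ), 0 < ε → ∃ F : Finset G, F.Nonempty ∧
    ∀ s ∈ S, (((s • (F : Set G)) ∆ (F : Set G)).ncard : ℝ) ≤ ε * F.card

/-- There is a non-amenable countable group `G` for which `C^*_r(G)` is matricially weakly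
semiprojective; moreover every `*`-homomorphism from `C^*_r(G)` to
`∏ M_{d n}(ℂ) / ⨁ M_{d n}(ℂ)` is zero. -/
theorem result : ∃ (G : Type) (_ : Group G) (_ : Countable G), ¬ IsAmenable G ∧
    MatriciallyWeaklySemiprojective (RedCStar G) ∧
    ∀ (d : ℕ → ℕ) (θ : ∀ n, RedCStar G → Matrix (Fin (d n)) (Fin (d n)) ℂ), LiftsStarHom d θ →
      ∀ a, Tendsto (fun n => opNorm (θ n a)) atTop (𝓝 0) := by
  obtain ⟨G, _, _, hna, hz⟩ := Pool.Agent.N708.MX.final2
  have hz' : ∀ (d : ℕ → ℕ) (θ : ∀ n, RedCStar G → Matrix (Fin (d n)) (Fin (d n)) ℂ),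
      LiftsStarHom d θ → ∀ a, Tendsto (fun n => opNorm (θ n a)) atTop (𝓝 0) :=
    fun d θ h => hz d θ ⟨h.bdd, h.add, h.smul, h.mul, h.star⟩
  refine ⟨G, inferInstance, inferInstance, hna, fun d θ h => ⟨fun n =>
    { toFun := fun _ => 0
      map_smul' := fun z a => (smul_zero _).symm
      map_zero' := rfl
      map_add' := fun a b => (add_zero _).symm
      map_mul' := fun a b => (mul_zero _).symm
      map_star' := fun a => (star_zero _).symm }, fun a => ?_⟩, hz'⟩
  refine (hz' d θ h a).congr fun n => ?_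
  change opNorm (θ n a) = opNorm (θ n a - 0)
  rw [sub_zero]

end

end Pool.Agent.Results.MP_56ff7a_an.NoMatricialModels
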